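import Pool.Agent.Helper46.DC.Defs

/-!
# From connected parts to disjoint cycles
-/

set_option autoImplicit false

namespace Pool.Agent.DC

open Finset

/-- a chain of the relation gives a walk inside `S` -/
theorem exists_walk {V : Type} (G : SimpleGraph V) (S : Set V) {a b : V}
    (h : Relation.ReflTransGen (fun u v => u ∈ S ∧ v ∈ S ∧ G.Adj u v) a b) (ha : a ∈ S) :
    ∃ p : G.Walk a b, ∀ v ∈ p.support, v ∈ S := by
  induction h with
  | refl => exact ⟨SimpleGraph.Walk.nil, by simpa using ha⟩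
  | tail _ hbc ih =>
    obtain ⟨p, hp⟩ := ih
    refine ⟨p.concat hbc.2.2, fun v hv => ?_⟩
    simp only [SimpleGraph.Walk.support_concat, List.mem_append,
      List.mem_singleton] at hv
    rcases hv with h1 | h1
    · exact hp v h1
    · rw [h1]
      exact hbc.2.1

/-- two distinct neighbours of `x` joined inside a set `S` avoiding `x` give a cycle through `x` -/
theorem exists_cycle {V : Type} (G : SimpleGraph V) (x a b : V) (S : Set V) (hx : x ∉ S)
    (hab : a ≠ b) (hxa : G.Adj x a) (hxb : G.Adj x b)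
    (h : Relation.ReflTransGen (fun u v => u ∈ S ∧ v ∈ S ∧ G.Adj u v) a b) (ha : a ∈ S) :
    ∃ C : G.Walk x x, C.IsCycle ∧ ∀ v ∈ C.support, v = x ∨ v ∈ S := by
  classical
  obtain ⟨p, hp⟩ := exists_walk G S h ha
  have hq : ∀ v ∈ p.bypass.support, v ∈ S := fun v hv =>
    hp v (SimpleGraph.Walk.support_bypass_subset_support p hv)
  have hqp : p.bypass.IsPath := SimpleGraph.Walk.bypass_isPath p
  have hxq : x ∉ p.bypass.support := fun h' => hx (hq x h')
  have hpath : (p.bypass.concat hxb.symm).IsPath := hqp.concat hxq hxb.symm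
  refine ⟨SimpleGraph.Walk.cons hxa (p.bypass.concat hxb.symm), ?_, ?_⟩
  · rw [SimpleGraph.Walk.cons_isCycle_iff]
    refine ⟨hpath, fun he => ?_⟩
    rw [SimpleGraph.Walk.edges_concat, List.concat_eq_append, List.mem_append,
      List.mem_singleton] at he
    rcases he with he | he
    · exact hxq (SimpleGraph.Walk.fst_mem_support_of_mem_edges _ he)
    · rw [Sym2.eq_iff] at he
      rcases he with ⟨h1, _⟩ | ⟨_, h2⟩
      · exact hxb.ne h1
      · exact hab h2
  · intro v hv
    rw [SimpleGraph.Walk.support_cons, List.mem_cons] at hv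
    rcases hv with hv | hv
    · exact Or.inl hv
    · simp only [SimpleGraph.Walk.support_concat, List.mem_append,
        List.mem_singleton] at hv
      rcases hv with h1 | h1
      · exact Or.inr (hq v h1)
      · exact Or.inl h1

/-- the statement of `exists_parts` -/
def PartsStmt : Prop :=
  ∀ (U ι P : Type) [Fintype U] [DecidableEq U] [Fintype ι] [DecidableEq ι]
    [Fintype P] [DecidableEq P] [Nonempty U] [Nonempty ι]
    (_ : Fintype.card P = Fintype.card ι)
    (adj : U → U ⊕ ι → Prop) (_ : ∀ J : Finset ι, J.Nonempty → Expand adj J)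
    (N : P → Finset (U ⊕ ι))
    (_ : ∀ D : Finset U,
      (univ.filter fun p => (N p \ D.map ⟨Sum.inl, Sum.inl_injective⟩).card ≤
        Fintype.card ι).card ≤ D.card),
    ∃ V : P → Set (U ⊕ ι), (∀ p q, p ≠ q → Disjoint (V p) (V q)) ∧
      (∀ p, ∃ r ∈ V p, ∀ x ∈ V p, Relation.ReflTransGen
        (fun x y => x ∈ V p ∧ y ∈ V p ∧ ∃ u, x = Sum.inl u ∧ adj u y) x r) ∧
      ∀ p, ∃ a b, a ≠ b ∧ a ∈ N p ∧ b ∈ N p ∧ a ∈ V p ∧ b ∈ V p

/-- criterion: graph version -/
theorem criterion_of_parts (exists_parts : PartsStmt) {V : Type} [Fintype V] [DecidableEq V] (G : SimpleGraph V) [DecidableRel G.Adj]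
    (X R : Finset V) (hXR : Disjoint X R) (hRX : R.card = X.card) (hX : X.Nonempty)
    (hbig : ∃ v, v ∉ X ∧ v ∉ R)
    (hconn : ∀ Z : Finset V, Disjoint Z X → Z.card < X.card →
      (G.induce {v | v ∉ X ∧ v ∉ Z}).Connected)
    (hS : ∀ D : Finset V, Disjoint D X → Disjoint D R →
      (X.filter fun x => ((univ.filter fun y => G.Adj x y ∧ y ∉ X) \ D).card ≤ X.card).card ≤
        D.card) : DisjCycles G X := by
  classical
  obtain ⟨v₀, hv₀⟩ := hbig
  have : Nonempty {v // v ∉ X ∧ v ∉ R} := ⟨⟨v₀, hv₀⟩⟩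
  have hRne : R.Nonempty := by
    rw [← Finset.card_pos, hRX]
    exact hX.card_pos
  obtain ⟨r₀, hr₀⟩ := hRne
  have : Nonempty {v // v ∈ R} := ⟨⟨r₀, hr₀⟩⟩
  let φ : {v // v ∉ X ∧ v ∉ R} ⊕ {v // v ∈ R} → V := Sum.elim (fun u => u.1) (fun j => j.1)
  have hφi : Function.Injective φ := by
    rintro (u | j) (u' | j') h
    · exact congrArg Sum.inl (Subtype.ext h)
    · exact absurd (show u.1 ∈ R by rw [show u.1 = j'.1 from h]; exact j'.2) u.2.2
    · exact absurd (show u'.1 ∈ R by rw [← show j.1 = u'.1 from h]; exact j.2) u'.2.2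
    · exact congrArg Sum.inr (Subtype.ext h)
  have hφX : ∀ x, φ x ∉ X := by
    rintro (u | j)
    · exact u.2.1
    · exact fun h => (Finset.disjoint_left.1 hXR h) j.2
  have hφs : ∀ v, v ∉ X → ∃ x, φ x = v := by
    intro v hv
    by_cases hR : v ∈ R
    · exact ⟨Sum.inr ⟨v, hR⟩, rfl⟩
    · exact ⟨Sum.inl ⟨v, hv, hR⟩, rfl⟩
  have hcard : Fintype.card {v // v ∈ X} = Fintype.card {v // v ∈ R} := by
    rw [Fintype.card_coe, Fintype.card_coe, hRX]
  let adj : {v // v ∉ X ∧ v ∉ R} → {v // v ∉ X ∧ v ∉ R} ⊕ {v // v ∈ R} → Prop :=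
    fun u x => G.Adj u.1 (φ x)
  have hexp : ∀ J : Finset {v // v ∈ R}, J.Nonempty → Expand adj J := by
    intro J hJ S
    set Y : Finset {v // v ∉ X ∧ v ∉ R} :=
      univ.filter (fun y => y ∉ S ∧ ∃ x ∈ S.disjSum J, adj y x) with hY
    by_cases hc : J.card ≤ Y.card
    · exact Or.inl ⟨Y, hc, fun y hy => (Finset.mem_filter.1 hy).2⟩
    · right
      intro y₀ hy₀
      by_contra hno
      set Z : Finset V := Y.image (fun u => u.1) ∪ (R \ J.image (fun j => j.1)) with hZ
      have hZX : Disjoint Z X := by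
        rw [Finset.disjoint_left]
        intro v hv hvX
        rw [hZ, Finset.mem_union] at hv
        rcases hv with hv | hv
        · obtain ⟨u, _, rfl⟩ := Finset.mem_image.1 hv
          exact u.2.1 hvX
        · exact (Finset.disjoint_left.1 hXR hvX) (Finset.mem_sdiff.1 hv).1
      have hZc : Z.card < X.card := by
        have h1 : Z.card ≤ Y.card + (R.card - J.card) := by
          refine (Finset.card_union_le _ _).trans (add_le_add Finset.card_image_le ?_)
          rw [Finset.card_sdiff_of_subset, Finset.card_image_of_injective _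
            Subtype.coe_injective]
          intro v hv
          obtain ⟨j, _, rfl⟩ := Finset.mem_image.1 hv
          exact j.2
        have h2 : J.card ≤ R.card := by
          rw [← Fintype.card_coe R]
          exact Finset.card_le_univ J
        omega
      have hC := hconn Z hZX hZc
      obtain ⟨j, hj⟩ := hJ
      have hjm : j.1 ∉ X ∧ j.1 ∉ Z := by
        refine ⟨hφX (Sum.inr j), fun hz => ?_⟩
        rw [hZ, Finset.mem_union] at hz
        rcases hz with hz | hz
        · obtain ⟨u, _, hu⟩ := Finset.mem_image.1 hz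
          exact u.2.2 (hu ▸ j.2)
        · exact (Finset.mem_sdiff.1 hz).2 (Finset.mem_image.2 ⟨j, hj, rfl⟩)
      have hym : y₀.1 ∉ X ∧ y₀.1 ∉ Z := by
        refine ⟨y₀.2.1, fun hz => ?_⟩
        rw [hZ, Finset.mem_union] at hz
        rcases hz with hz | hz
        · obtain ⟨u, hu1, hu⟩ := Finset.mem_image.1 hz
          have hu' : u = y₀ := Subtype.ext hu
          rw [hu'] at hu1
          exact hno (Finset.mem_filter.1 hu1).2.2
        · exact y₀.2.2 (Finset.mem_sdiff.1 hz).1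
      -- the closed set
      have hcl : ∀ v w : V, (∃ x ∈ S.disjSum J, φ x = v) → G.Adj v w → w ∉ X → w ∉ Z →
          ∃ x ∈ S.disjSum J, φ x = w := by
        rintro v w ⟨x, hx, rfl⟩ hvw hwX hwZ
        obtain ⟨x', rfl⟩ := hφs w hwX
        rcases x' with u | j'
        · by_cases huS : u ∈ S
          · exact ⟨Sum.inl u, Finset.inl_mem_disjSum.2 huS, rfl⟩
          · exfalso
            apply hwZ
            rw [hZ, Finset.mem_union]
            left
            refine Finset.mem_image.2 ⟨u, ?_, rfl⟩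
            rw [hY, Finset.mem_filter]
            exact ⟨Finset.mem_univ _, huS, x, hx, hvw.symm⟩
        · by_cases hj' : j' ∈ J
          · exact ⟨Sum.inr j', Finset.inr_mem_disjSum.2 hj', rfl⟩
          · exfalso
            apply hwZ
            rw [hZ, Finset.mem_union]
            right
            refine Finset.mem_sdiff.2 ⟨j'.2, fun h' => ?_⟩
            obtain ⟨j'', hj'', h3⟩ := Finset.mem_image.1 h'
            have h4 : j'' = j' := Subtype.ext h3
            exact hj' (h4 ▸ hj'')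
      obtain ⟨wk⟩ := hC.preconnected ⟨j.1, hjm⟩ ⟨y₀.1, hym⟩
      have hwalk : ∀ (a b : {v // v ∈ {v | v ∉ X ∧ v ∉ Z}})
          (_ : (G.induce {v | v ∉ X ∧ v ∉ Z}).Walk a b),
          (∃ x ∈ S.disjSum J, φ x = a.1) → ∃ x ∈ S.disjSum J, φ x = b.1 := by
        intro a b w
        induction w with
        | nil => exact id
        | @cons a c b h' _ ih =>
          intro hx
          exact ih (hcl _ _ hx h' c.2.1 c.2.2)
      obtain ⟨x, hx, hxe⟩ := hwalk _ _ wk ⟨Sum.inr j, Finset.inr_mem_disjSum.2 hj, rfl⟩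
      have hx' : x = Sum.inl y₀ := hφi hxe
      rw [hx'] at hx
      exact hy₀ (Finset.inl_mem_disjSum.1 hx)
  let N : {v // v ∈ X} → Finset ({v // v ∉ X ∧ v ∉ R} ⊕ {v // v ∈ R}) :=
    fun p => univ.filter fun x => G.Adj p.1 (φ x)
  have hS' : ∀ D : Finset {v // v ∉ X ∧ v ∉ R},
      (univ.filter fun p => (N p \ D.map ⟨Sum.inl, Sum.inl_injective⟩).card ≤
        Fintype.card {v // v ∈ R}).card ≤ D.card := by
    intro D
    have h1 := hS (D.image fun u => u.1) (by
      rw [Finset.disjoint_left]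
      intro v hv
      obtain ⟨u, _, rfl⟩ := Finset.mem_image.1 hv
      exact u.2.1) (by
      rw [Finset.disjoint_left]
      intro v hv
      obtain ⟨u, _, rfl⟩ := Finset.mem_image.1 hv
      exact u.2.2)
    rw [Finset.card_image_of_injective _ Subtype.coe_injective] at h1
    refine le_trans ?_ h1
    refine Finset.card_le_card_of_injOn (fun p => p.1) ?_ (Subtype.coe_injective.injOn)
    intro p hp
    have hp2 := (Finset.mem_filter.1 (Finset.mem_coe.1 hp)).2
    refine Finset.mem_coe.2 (Finset.mem_filter.2 ⟨p.2, ?_⟩)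
    have h2 : ((univ.filter fun y => G.Adj p.1 y ∧ y ∉ X) \ D.image fun u => u.1) =
        (N p \ D.map ⟨Sum.inl, Sum.inl_injective⟩).image φ := by
      ext v
      simp only [Finset.mem_sdiff, Finset.mem_filter, Finset.mem_univ, true_and,
        Finset.mem_image, Finset.mem_map, N]
      constructor
      · rintro ⟨⟨h3, h4⟩, h5⟩
        obtain ⟨x, rfl⟩ := hφs v h4
        refine ⟨x, ⟨h3, ?_⟩, rfl⟩
        rintro ⟨u, hu, hux⟩
        exact h5 ⟨u, hu, by rw [← hux]; rfl⟩
      · rintro ⟨x, ⟨h3, h4⟩, rfl⟩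
        refine ⟨⟨h3, hφX x⟩, ?_⟩
        rintro ⟨u, hu, hux⟩
        exact h4 ⟨u, hu, hφi hux⟩
    rw [h2, Finset.card_image_of_injective _ hφi, ← hRX, ← Fintype.card_coe R]
    exact hp2
  obtain ⟨W, hWd, hWr, hWn⟩ := exists_parts _ _ _ hcard adj hexp N hS'
  have hcyc : ∀ x : V, ∃ C : G.Walk x x, ∀ hx : x ∈ X, C.IsCycle ∧
      ∀ v ∈ C.support, v = x ∨ v ∈ φ '' W ⟨x, hx⟩ := by
    intro x
    by_cases hx : x ∈ X
    · obtain ⟨a, b, hab, haN, hbN, haW, hbW⟩ := hWn ⟨x, hx⟩
      obtain ⟨r, hr, hreach⟩ := hWr ⟨x, hx⟩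
      have hsym : Std.Symm (fun u v => u ∈ φ '' W ⟨x, hx⟩ ∧ v ∈ φ '' W ⟨x, hx⟩ ∧ G.Adj u v) :=
        ⟨fun u v h => ⟨h.2.1, h.1, h.2.2.symm⟩⟩
      have hl : ∀ y ∈ W ⟨x, hx⟩, Relation.ReflTransGen
          (fun u v => u ∈ φ '' W ⟨x, hx⟩ ∧ v ∈ φ '' W ⟨x, hx⟩ ∧ G.Adj u v) (φ y) (φ r) := by
        intro y hy
        refine Relation.ReflTransGen.lift φ ?_ y r (hreach y hy)
        rintro z z' ⟨h1, h2, u, rfl, h3⟩
        exact ⟨⟨_, h1, rfl⟩, ⟨_, h2, rfl⟩, h3⟩
      have hab' := (hl a haW).trans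
        ((Relation.ReflTransGen.stdSymm (r := fun u v => u ∈ φ '' W ⟨x, hx⟩ ∧
          v ∈ φ '' W ⟨x, hx⟩ ∧ G.Adj u v)).symm _ _ (hl b hbW))
      obtain ⟨C, hC1, hC2⟩ := exists_cycle G x (φ a) (φ b) (φ '' W ⟨x, hx⟩) (by
        rintro ⟨y, _, hy⟩
        exact hφX y (hy ▸ hx)) (fun h => hab (hφi h)) (Finset.mem_filter.1 haN).2
        (Finset.mem_filter.1 hbN).2 hab' ⟨a, haW, rfl⟩
      exact ⟨C, fun _ => ⟨hC1, hC2⟩⟩
    · exact ⟨SimpleGraph.Walk.nil, fun h => absurd h hx⟩
  choose C hC using hcyc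
  refine ⟨C, fun x hx => (hC x hx).1, fun x hx v hv hvX => ?_, fun x hx y hy hxy v hv hv' => ?_⟩
  · rcases (hC x hx).2 v hv with h | ⟨z, _, rfl⟩
    · exact h
    · exact absurd hvX (hφX z)
  · rcases (hC x hx).2 v hv with h | ⟨z, hz, rfl⟩
    · rcases (hC y hy).2 v hv' with h' | ⟨z, _, rfl⟩
      · exact hxy (h ▸ h')
      · exact hφX z (h ▸ hx)
    · rcases (hC y hy).2 _ hv' with h' | ⟨z', hz', h'⟩
      · exact hφX z (h' ▸ hy)
      · have := hφi h'
        rw [this] at hz'
        exact Set.disjoint_left.1 (hWd ⟨x, hx⟩ ⟨y, hy⟩ fun h => hxy (congrArg Subtype.val h))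
          hz hz'

end Pool.Agent.DC
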